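import Pool.Agent.Lib.helper29.MinCert2

open Filter Topology
open scoped ComplexOrder ComplexConjugate InnerProductSpace

namespace Pool.Agent.Results.MP_232e98_an.Minimum

open Pool.Agent.Lib.H29.Pick Pool.Agent.Lib.H29.MinCert

section
variable {Y : Type}

/-- A complete Pick kernel. -/
def IsCP (s : Y → Y → ℂ) : Prop :=
  IsKernel s ∧ (∀ z w, s z w ≠ 0) ∧ ∃ (δ : Y → ℂ) (F : Y → Y → ℂ), (∀ z, δ z ≠ 0) ∧ IsKernel F ∧
    (∀ x, F x x < 1) ∧ ∀ z w, s z w = δ z * conj (δ w) / (1 - F z w)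

/-- A certificate for `k`. -/
def IsCert (k s : Y → Y → ℂ) : Prop :=
  IsCP s ∧ ∃ h, IsKernel h ∧ ∀ z w, k z w = (1 - h z w) * s z w

/-- A minimum certificate for `k`. -/
def IsMinCert (k s : Y → Y → ℂ) : Prop :=
  IsCert k s ∧ ∀ s', IsCert k s' → IsKernel fun z w => s' z w / s z w

end

lemma ne {a : ℂ} (h : ‖a‖ < 1) : 1 - a ≠ 0 := fun e => by
  rw [← sub_eq_zero.1 e] at h; simp at h

lemma core {F : X → X → ℂ} (hF : IsKernel F) (h1 : ∀ z, F z z < 1)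
    (hh : IsKernel fun z w : X => 1 - ((1 - (z : ℂ) * conj (w : ℂ)) ^ 2)⁻¹ * (1 - F z w)) :
    IsKernel fun z w : X => (1 - 2 * (z : ℂ) * conj (w : ℂ)) * (1 - F z w)⁻¹ := by
  obtain ⟨H, _, _, φ, hφ⟩ := kolm hF
  obtain ⟨K, _, _, η, hη⟩ := kolm hh
  have hφ1 : ∀ z, ‖φ z‖ < 1 := fun z => by
    have h2 := (Complex.lt_def.1 (h1 z)).1
    rw [hφ, ← RCLike.re_to_complex, inner_self_eq_norm_sq] at h2
    exact (pow_lt_one_iff_of_nonneg (norm_nonneg _) two_ne_zero).1 h2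
  have hF1 : ∀ z w, ‖F z w‖ < 1 := fun z w => by
    rw [hφ]
    exact (norm_inner_le_norm _ _).trans_lt
      (mul_lt_one_of_nonneg_of_lt_one_left (norm_nonneg _) (hφ1 z) (hφ1 w).le)
  have hG := hF.geom hF1
  obtain ⟨r, -, hr, hr'⟩ := exists_seq_strictMono_tendsto' (show (0 : ℝ) < 1 / √2 by positivity)
  choose e0 e1 he h using fun N => approx φ η hφ1 (fun z w => by rw [← hη, hφ])
    (N := N + 3) (by omega) (hr N).1.le (hr N).2
  have hD : ∀ N z, 1 - ‖φ z‖ ≤ ‖1 - ⟪φ z, e0 N⟫_ℂ‖ := fun N z => by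
    have h2 : ‖e0 N‖ ≤ 1 := by nlinarith [he N, norm_nonneg (e0 N), sq_nonneg ‖e1 N‖]
    have h3 := (norm_inner_le_norm (𝕜 := ℂ) (φ z) (e0 N)).trans
      (mul_le_of_le_one_right (norm_nonneg _) h2)
    have := norm_sub_norm_le 1 ⟪φ z, e0 N⟫_ℂ
    rw [norm_one] at this; linarith
  have hD0 : ∀ N z, 1 - ⟪φ z, e0 N⟫_ℂ ≠ 0 := fun N z =>
    norm_pos_iff.1 ((sub_pos.2 (hφ1 z)).trans_le (hD N z))
  let q : ℕ → X → ℂ := fun N z => ⟪φ z - e0 N, e1 N⟫_ℂ / (1 - ⟪φ z, e0 N⟫_ℂ)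
  have hτ := tau_lim.comp (tendsto_add_atTop_nat 3)
  have hs : (1 / √2 : ℝ) ^ 2 = 1 / 2 := by rw [div_pow, Real.sq_sqrt (by norm_num), one_pow]
  have hq : ∀ z : X, Tendsto (fun N => q N z) atTop (𝓝 (2 * (z * (1 / √2 : ℝ)))) := fun z => by
    have h2 : Tendsto (fun N => q N z - 2 * (z * r N)) atTop (𝓝 0) := by
      refine squeeze_zero_norm (a := fun N => (18 * √(1 - 2 * r N ^ 2 + 2 * tau (N + 3))
        + 4 * tau (N + 3)) / (1 - ‖φ z‖)) (fun N => ?_) ?_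
      · rw [div_sub' (hD0 N z), norm_div, mul_comm (1 - _)]
        exact div_le_div₀ ((norm_nonneg _).trans (h N z)) (h N z) (sub_pos.2 (hφ1 z)) (hD N z)
      · have := ((((((hr'.pow 2).const_mul 2).const_sub 1).add (hτ.const_mul 2)).sqrt.const_mul
          18).add (hτ.const_mul 4)).div_const (1 - ‖φ z‖)
        rw [hs] at this
        simpa using this
    simpa using h2.add ((((Complex.continuous_ofReal.tendsto _).comp hr').const_mul
      (z : ℂ)).const_mul 2)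
  refine kernel_lim atTop (fun N z w => (1 - q N z * conj (q N w)) * (1 - F z w)⁻¹) _
    (fun z w => ?_) (.of_forall fun N => ?_)
  · convert (((hq z).mul ((Complex.continuous_conj.tendsto _).comp (hq w))).const_sub 1).mul_const
      (1 - F z w)⁻¹ using 3
    · rfl
    have h2 : ((1 / √2 : ℝ) : ℂ) ^ 2 = 1 / 2 := by rw [← Complex.ofReal_pow, hs]; simp
    simp only [map_mul, Complex.conj_ofReal, map_ofNat]
    linear_combination (4 * z * conj (w : ℂ)) * h2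
  · have hκ : ‖e1 N‖ ^ 2 ≤ 1 - ‖e0 N‖ ^ 2 := by linarith [he N]
    refine (((((rank1 fun z => ⟪φ z - e0 N, e0 N⟫_ℂ).add'
      (gramCS (fun z => φ z - e0 N) (e1 N) hκ)).mul' hG).add'
      (one_kernel.smul' ((sq_nonneg _).trans hκ))).mul'
      (rank1 fun z => (1 - ⟪φ z, e0 N⟫_ℂ)⁻¹)).congr' fun z w => ?_
    have h2 := hD0 N z
    have h3 : 1 - ⟪e0 N, φ w⟫_ℂ ≠ 0 := fun e => hD0 N w (by simpa using congrArg conj e)
    have h4 := ne (hF1 z w)
    have h5 : ((1 - ‖e0 N‖ ^ 2 : ℝ) : ℂ) = 1 - ⟪e0 N, e0 N⟫_ℂ := by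
      rw [inner_self_eq_norm_sq_to_K]; push_cast; rfl
    simp only [q, h5, RCLike.star_def, map_div₀, map_inv₀, map_sub, map_one, inner_conj_symm,
      inner_sub_left, inner_sub_right, ← hφ]
    field_simp
    ring

theorem result : IsMinCert (Y := {z : ℂ // ‖z‖ < 1 / √2})
    (fun z w => ((1 - (z : ℂ) * conj (w : ℂ)) ^ 2)⁻¹)
    (fun z w => (1 - 2 * (z : ℂ) * conj (w : ℂ))⁻¹) := by
  have t1 : ∀ z w : X, ‖(z : ℂ) * conj (w : ℂ)‖ < 1 := fun z w => (X_lt z w).trans (by norm_num)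
  have t2 : ∀ z w : X, ‖2 * (z : ℂ) * conj (w : ℂ)‖ < 1 := fun z w => by
    rw [mul_assoc, norm_mul, Complex.norm_ofNat]; linarith [X_lt z w]
  have k1 : IsKernel fun z w : X => (z : ℂ) * conj (w : ℂ) := rank1 fun z : X => (z : ℂ)
  have k2 : IsKernel fun z w : X => 2 * (z : ℂ) * conj (w : ℂ) :=
    (k1.smul' zero_le_two).congr' fun z w => by simp [mul_assoc]
  refine ⟨⟨⟨k2.geom t2, fun z w => inv_ne_zero (ne (t2 z w)), fun _ => 1, _, by simp, k2,
    fun x => ?_, by simp⟩, _, (k1.mul' (k1.geom t1)).pow' 2, fun z w => ?_⟩, ?_⟩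
  · have := t2 x x
    rw [mul_assoc, Complex.mul_conj'] at this ⊢
    have h2 : 2 * ‖(x : ℂ)‖ ^ 2 < 1 := by simpa using this
    exact_mod_cast h2
  · have h1 := ne (t1 z w)
    have h2 := ne (t2 z w)
    rw [eq_mul_inv_iff_mul_eq₀ h2]
    field_simp
    ring
  rintro s ⟨⟨-, hs, δ, F, hδ, hF, hF1, e⟩, h, hh, e'⟩
  let o : X := ⟨0, by rw [norm_zero]; positivity⟩
  have hF0 : ∀ z w, 1 - F z w ≠ 0 := fun z w h0 => hs z w (by rw [e, h0, div_zero])
  have hδ' : ∀ z, conj (δ z) ≠ 0 := fun z => by simpa using hδ z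
  have hc : ∀ z w, conj (F z w) = F w z := fun z w => hF.1.apply w z
  have hp : ∀ z, ∃ a : ℝ, 0 < a ∧ 1 - F z z = a := fun z => by
    obtain ⟨h1, h2⟩ := Complex.lt_def.1 (sub_pos.2 (hF1 z))
    exact ⟨_, h1, Complex.ext rfl (by simpa using h2.symm)⟩
  have e2 : ∀ z w, 1 - h z w = ((1 - (z : ℂ) * conj (w : ℂ)) ^ 2)⁻¹ * (1 - F z w)
      / (δ z * conj (δ w)) := fun z w => by
    have := hF0 z w
    have := hδ z
    have := hδ' w
    rw [show ((1 - (z : ℂ) * conj (w : ℂ)) ^ 2)⁻¹ = _ from e' z w, e]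
    field_simp
  obtain ⟨a, ha, ea⟩ := hp o
  have k3 := normalize hF o ha ea fun z => hF0 z o
  have k4 := normalize hh o (a := a / ‖δ o‖ ^ 2) (div_pos ha (pow_pos (norm_pos_iff.2 (hδ o)) 2))
    (by rw [e2, ea, Complex.mul_conj' (δ o)]; simp [o]) fun z => by
      rw [e2]
      exact div_ne_zero (mul_ne_zero (by simp [o]) (hF0 _ _)) (mul_ne_zero (hδ _) (hδ' _))
  have k5 := core k3 (fun z => ?_) (k4.congr' fun z w => ?_)
  · refine ((k5.smul' ha.le).mul' (rank1 fun z => δ z / (1 - F z o))).congr' fun z w => ?_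
    have := hF0 z w
    have := hF0 z o
    have := hF0 o w
    have := hF0 o o
    simp only [e, ← ea, RCLike.star_def, map_div₀, map_sub, map_one, hc, sub_sub_cancel]
    field_simp
  · obtain ⟨b, hb, eb⟩ := hp z
    have h2 : 1 - F o z = conj (1 - F z o) := by simp [hc]
    rw [sub_lt_self_iff, eb, ea, h2, Complex.mul_conj']
    have := norm_pos_iff.2 (hF0 z o)
    exact_mod_cast (by positivity : 0 < b * a / ‖1 - F z o‖ ^ 2)
  · have := hF0 z o
    have := hF0 o w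
    have := hδ z
    have := hδ' w
    have := hδ o
    have := hδ' o
    have ho : (o : ℂ) = 0 := rfl
    simp only [e2, ho, map_zero, mul_zero, zero_mul, sub_zero, one_pow, inv_one, one_mul,
      sub_sub_cancel]
    field_simp

end Pool.Agent.Results.MP_232e98_an.Minimum
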